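import Pool.Agent.MWPC.Stmts

/-!
# Block MWPN: row BAS (`β` keeps the kind of the two blocks)
-/

namespace Pool.Agent.MWPN.C.H59

open Pool.Agent.Helper14_MV Pool.Agent.Helper2_MV Pool.Agent.MWF
open Pool.Agent.MWP (pair_append pair_cons pair_mem pair_trans pair_total)

theorem V7_ge {v : List ℕ} {c : ℕ} (h : c ∈ V7 v) : 7 ≤ c := by
  unfold V7 at h
  obtain ⟨b, _, rfl⟩ := List.mem_map.1 h
  omega

theorem V7_ne {v : List ℕ} (h : v ≠ []) : ∃ z, z ∈ V7 v := by
  cases v with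
  | nil => exact absurd rfl h
  | cons a v => exact ⟨a + 7, by simp [V7]⟩

theorem mem_c0 {v : List ℕ} {c : ℕ} : c ∈ c0 v ↔ (1 ≤ c ∧ c ≤ 6) ∨ c ∈ V7 v := by
  unfold c0
  simp only [List.mem_append, List.mem_cons, List.not_mem_nil, or_false]
  constructor
  · rintro ((h | h) | h)
    · left; omega
    · exact Or.inr h
    · left; omega
  · rintro (⟨h1, h2⟩ | h)
    · have h3 : c = 1 ∨ c = 2 ∨ c = 3 ∨ c = 4 ∨ c = 5 ∨ c = 6 := by omega
      tauto
    · tauto

theorem not_pair_c0 {v : List ℕ} {x y : ℕ} (h1 : ¬ [x, y].Sublist [1, 5, 5, 2])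
    (h2 : ¬ (x ∈ [1, 5, 5, 2] ∧ (y ∈ V7 v ∨ y ∈ [3, 6, 6, 4])))
    (h3 : ¬ [x, y].Sublist (V7 v)) (h4 : ¬ (x ∈ V7 v ∧ y ∈ [3, 6, 6, 4]))
    (h5 : ¬ [x, y].Sublist [3, 6, 6, 4]) : ¬ [x, y].Sublist (c0 v) := by
  unfold c0
  rw [List.append_assoc, pair_append, pair_append, List.mem_append]
  tauto

theorem between {v : List ℕ} (hv : v ≠ []) {c d : ℕ} (hc : 1 ≤ c) (hcd : c < d) (hd : d ≤ 4) :
    ∃ z, 5 ≤ z ∧ z ∈ c0 v ∧ ¬ [z, c].Sublist (c0 v) ∧ ¬ [d, z].Sublist (c0 v) := by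
  obtain ⟨z, hz⟩ := V7_ne hv
  have hz7 := V7_ge hz
  have key : ∀ k, k ≤ 6 → k ∉ V7 v := fun k hk h => by
    have := V7_ge h
    omega
  have hp1 : ∀ {x y : ℕ}, y ∉ V7 v → ¬ [x, y].Sublist (V7 v) := fun h h' => h (pair_mem h').2
  have hp2 : ∀ {x y : ℕ}, x ∉ V7 v → ¬ [x, y].Sublist (V7 v) := fun h h' => h (pair_mem h').1
  have hcase : (c = 1 ∧ d = 2) ∨ (c = 3 ∧ d = 4) ∨ ((c = 1 ∨ c = 2) ∧ (d = 3 ∨ d = 4)) := by
    omega
  rcases hcase with ⟨rfl, rfl⟩ | ⟨rfl, rfl⟩ | ⟨hc', hd'⟩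
  · refine ⟨5, le_refl 5, mem_c0.2 (Or.inl (by omega)), ?_, ?_⟩
    · refine not_pair_c0 (by decide) ?_ (hp1 (key 1 (by omega))) ?_ (by decide)
      · rintro ⟨_, h | h⟩
        · exact key 1 (by omega) h
        · revert h; decide
      · rintro ⟨_, h⟩
        revert h; decide
    · refine not_pair_c0 (by decide) ?_ (hp1 (key 5 (by omega))) ?_ (by decide)
      · rintro ⟨_, h | h⟩
        · exact key 5 (by omega) h
        · revert h; decide
      · rintro ⟨_, h⟩
        revert h; decide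
  · refine ⟨6, by omega, mem_c0.2 (Or.inl (by omega)), ?_, ?_⟩
    · refine not_pair_c0 (by decide) ?_ (hp1 (key 3 (by omega))) ?_ (by decide)
      · rintro ⟨h, _⟩
        revert h; decide
      · rintro ⟨h, _⟩
        exact key 6 (by omega) h
    · refine not_pair_c0 (by decide) ?_ (hp2 (key 4 (by omega))) ?_ (by decide)
      · rintro ⟨h, _⟩
        revert h; decide
      · rintro ⟨h, _⟩
        exact key 4 (by omega) h
  · refine ⟨z, by omega, mem_c0.2 (Or.inr hz), ?_, ?_⟩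
    · have hcV : c ∉ V7 v := key c (by omega)
      have hcR : c ∉ [3, 6, 6, 4] := by
        simp only [List.mem_cons, List.not_mem_nil, or_false]; omega
      refine not_pair_c0 ?_ ?_ (hp1 hcV) ?_ ?_
      · intro h
        have h' := (pair_mem h).1
        simp only [List.mem_cons, List.not_mem_nil, or_false] at h'
        omega
      · rintro ⟨h, _⟩
        simp only [List.mem_cons, List.not_mem_nil, or_false] at h
        omega
      · rintro ⟨_, h⟩
        exact hcR h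
      · intro h
        exact hcR (pair_mem h).2
    · have hdV : d ∉ V7 v := key d (by omega)
      have hdL : d ∉ [1, 5, 5, 2] := by
        simp only [List.mem_cons, List.not_mem_nil, or_false]; omega
      refine not_pair_c0 ?_ ?_ (hp2 hdV) ?_ ?_
      · intro h
        exact hdL (pair_mem h).1
      · rintro ⟨h, _⟩
        exact hdL h
      · rintro ⟨h, _⟩
        exact hdV h
      · intro h
        have h' := (pair_mem h).2
        simp only [List.mem_cons, List.not_mem_nil, or_false] at h'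
        omega

/-- a word in which the letter `c` is behind `z` or not, with the letter `z` between -/
theorem via {l : List ℕ} {c d z : ℕ} (hcd : c ≠ d) (hz : z ∈ l) (hc : c ∈ l) (hd : d ∈ l)
    (hzc : z ≠ c) (hzd : z ≠ d) (h1 : ¬ [z, c].Sublist l) (h2 : ¬ [d, z].Sublist l) :
    [c, d].Sublist l ∧ ¬ [d, c].Sublist l := by
  have h3 : ¬ [d, c].Sublist l := by
    rcases pair_trans hz h1 h2 with h | ⟨h, _⟩ | h | h
    · exact h
    · exact absurd h.symm hcd
    · exact absurd h hzc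
    · exact absurd h hzd
  rcases pair_total hc hd hcd with h | h
  · exact ⟨h, h3⟩
  · exact absurd h h3

theorem bas (hISO : IsoStmt) (hEGX : EgxStmt) (hORD : OrdStmt) : BasStmt := by
  intro n β hβ v w0 w1 w' hv hB hR
  have hISO' := hISO n β hβ _ _ hR
  have h0c : 0 ∉ c0 v := by
    intro h
    rcases mem_c0.1 h with ⟨h, _⟩ | h
    · omega
    · have := V7_ge h
      omega
  have h0 : 0 ∉ w0 := fun h => h0c ((hB.m0 0).1 h)
  have h1 : 0 ∉ w1 := fun h => by
    have := (hB.m1 0).1 h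
    omega
  -- splitting of the second word
  have h00 : ¬ [0, 0].Sublist (w0 ++ 0 :: w1) := by
    rw [pair_append, pair_cons]
    rintro (h | ⟨h, _⟩ | (⟨_, h⟩ | h))
    · exact h0 (pair_mem h).1
    · exact h0 h
    · exact h1 h
    · exact h1 (pair_mem h).1
  have h0w' : 0 ∈ w' := (hISO' 0).1.1 (by simp)
  obtain ⟨w0', w1', rfl⟩ := List.append_of_mem h0w'
  have h00' : ¬ [0, 0].Sublist (w0' ++ 0 :: w1') := fun h => h00 ((hISO' 0).2.1.2 h)
  have h0' : 0 ∉ w0' := fun h => h00' (pair_append.2 (Or.inr (Or.inl ⟨h, by simp⟩)))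
  have h1' : 0 ∉ w1' := fun h => h00' (pair_append.2 (Or.inr (Or.inr (pair_cons.2
    (Or.inl ⟨rfl, h⟩)))))
  refine ⟨w0', w1', rfl, ?_⟩
  -- all letters except 0 are multiple
  have hmul0 : ∀ c, c ∈ w0 → [c, c].Sublist (w0 ++ 0 :: w1) := by
    intro c hc
    by_cases h5 : 5 ≤ c
    · exact pair_append.2 (Or.inl (hB.tw c h5 hc))
    · have hc0 : c ≠ 0 := fun h => h0 (h ▸ hc)
      have hc1 : c ∈ w1 := (hB.m1 c).2 (by omega)
      exact pair_append.2 (Or.inr (Or.inl ⟨hc, List.mem_cons_of_mem _ hc1⟩))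
  have hmul1 : ∀ c, c ∈ w1 → [c, c].Sublist (w0 ++ 0 :: w1) := by
    intro c hc
    have h14 := (hB.m1 c).1 hc
    exact hmul0 c ((hB.m0 c).2 (mem_c0.2 (Or.inl (by omega))))
  have hE : ∀ c, c ≠ 0 → (c ∈ w0 ∨ c ∈ w1) → (c ∈ w0 ↔ c ∈ w0') ∧ (c ∈ w1 ↔ c ∈ w1') := by
    intro c hc hcw
    refine hEGX n β hβ w0 w1 w0' w1' h0 h1 h0' h1' hR c hc ?_
    rcases hcw with h | h
    · exact hmul0 c h
    · exact hmul1 c h
  have hback : ∀ c, c ≠ 0 → (c ∈ w0' ∨ c ∈ w1') → (c ∈ w0 ∨ c ∈ w1) := by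
    intro c hc hcw
    have h : c ∈ w0 ++ 0 :: w1 := (hISO' c).1.2 (by
      rw [List.mem_append, List.mem_cons]
      tauto)
    rw [List.mem_append, List.mem_cons] at h
    tauto
  have hm0 : ∀ c, c ∈ w0' ↔ c ∈ c0 v := by
    intro c
    by_cases hc : c = 0
    · subst hc
      exact ⟨fun h => absurd h h0', fun h => absurd h h0c⟩
    · constructor
      · intro h
        exact (hB.m0 c).1 ((hE c hc (hback c hc (Or.inl h))).1.2 h)
      · intro h
        have h' := (hB.m0 c).2 h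
        exact (hE c hc (Or.inl h')).1.1 h'
  have hm1 : ∀ c, c ∈ w1' ↔ (1 ≤ c ∧ c ≤ 4) := by
    intro c
    by_cases hc : c = 0
    · subst hc
      exact ⟨fun h => absurd h h1', fun h => by omega⟩
    · constructor
      · intro h
        exact (hB.m1 c).1 ((hE c hc (hback c hc (Or.inr h))).2.2 h)
      · intro h
        have h' := (hB.m1 c).2 h
        exact (hE c hc (Or.inr h')).2.1 h'
  have htw : ∀ c, 5 ≤ c → c ∈ w0' → [c, c].Sublist w0' := by
    intro c h5 hc
    have hcw0 : c ∈ w0 := (hB.m0 c).2 ((hm0 c).1 hc)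
    have hcc : [c, c].Sublist (w0' ++ 0 :: w1') := (hISO' c).2.1.1 (hmul0 c hcw0)
    have hc1 : c ∉ w1' := fun h => by
      have := (hm1 c).1 h
      omega
    rw [pair_append, pair_cons] at hcc
    rcases hcc with h | ⟨_, h⟩ | (⟨h, _⟩ | h)
    · exact h
    · rcases List.mem_cons.1 h with h | h
      · omega
      · exact absurd h hc1
    · omega
    · exact absurd (pair_mem h).1 hc1
  -- patterns with a local letter
  have hmul0' : ∀ c, c ∈ w0' → [c, c].Sublist (w0' ++ 0 :: w1') := by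
    intro c hc
    exact (hISO' c).2.1.1 (hmul0 c ((hB.m0 c).2 ((hm0 c).1 hc)))
  have hRs : RR β (w0' ++ 0 :: w1') (w0 ++ 0 :: w1) := hR.symm
  have hlocal : ∀ c z, c ≠ z → c ∈ c0 v → z ∈ c0 v → 5 ≤ z →
      ([c, z].Sublist w0 ↔ [c, z].Sublist w0') ∧ ([z, c].Sublist w0 ↔ [z, c].Sublist w0') := by
    intro c z hcz hc hz h5
    have hc0 : c ≠ 0 := fun h => h0c (h ▸ hc)
    have hz0 : z ≠ 0 := by omega
    have hzw0 : z ∈ w0 := (hB.m0 z).2 hz
    have hzw0' : z ∈ w0' := (hm0 z).2 hz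
    have hcw0 : c ∈ w0 := (hB.m0 c).2 hc
    have hcw0' : c ∈ w0' := (hm0 c).2 hc
    have hz1 : z ∉ w1 := fun h => by
      have := (hB.m1 z).1 h
      omega
    have hz1' : z ∉ w1' := fun h => by
      have := (hm1 z).1 h
      omega
    have hA := hORD n β hβ w0 w1 w0' w1' h0 h1 h0' h1' hR c z hcz hc0 hz0 (hB.tw z h5 hzw0) hz1
      hcw0 (hmul0 c hcw0)
    have hA' := hORD n β hβ w0' w1' w0 w1 h0' h1' h0 h1 hRs c z hcz hc0 hz0 (htw z h5 hzw0') hz1'
      hcw0' (hmul0' c hcw0')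
    exact ⟨⟨hA.1, hA'.1⟩, ⟨hA.2, hA'.2⟩⟩
  have hlow : ∀ c d, c < d → c ∈ c0 v → d ∈ c0 v → d ≤ 4 →
      ([c, d].Sublist w0' ∧ ¬ [d, c].Sublist w0') ∧
        ([c, d].Sublist (c0 v) ∧ ¬ [d, c].Sublist (c0 v)) := by
    intro c d hcd hc hd hd4
    have hc1 : 1 ≤ c := by
      have hc0 : c ≠ 0 := fun h => h0c (h ▸ hc)
      omega
    obtain ⟨z, h5, hz, hzc, hdz⟩ := between hv hc1 hcd hd4
    have hzc' : ¬ [z, c].Sublist w0' := by
      rw [← (hlocal c z (by omega) hc hz h5).2, hB.pt z c (by omega)]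
      exact hzc
    have hdz' : ¬ [d, z].Sublist w0' := by
      rw [← (hlocal d z (by omega) hd hz h5).1, hB.pt d z (by omega)]
      exact hdz
    exact ⟨via (by omega) ((hm0 z).2 hz) ((hm0 c).2 hc) ((hm0 d).2 hd) (by omega) (by omega)
      hzc' hdz', via (by omega) hz hc hd (by omega) (by omega) hzc hdz⟩
  have hrs : ∀ c, 5 ≤ c → w0'.count c ≡ (c0 v).count c [MOD n] := by
    intro c h5
    have h3 := (hISO' c).2.2
    have hc1 : c ∉ w1 := fun h => by
      have := (hB.m1 c).1 h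
      omega
    have hc1' : c ∉ w1' := fun h => by
      have := (hm1 c).1 h
      omega
    have hc0 : (0 == c) = false := by
      simp only [beq_eq_false_iff_ne]
      omega
    rw [List.count_append, List.count_append, List.count_cons, List.count_cons,
      List.count_eq_zero_of_not_mem hc1, List.count_eq_zero_of_not_mem hc1', hc0] at h3
    simp only [Bool.false_eq_true, if_false, add_zero] at h3
    exact h3.symm.trans (hB.rs c h5)
  refine ⟨hm0, hm1, ?_, htw, hrs⟩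
  intro c d hcd
  by_cases hc : c ∈ c0 v
  · by_cases hd : d ∈ c0 v
    · by_cases hd5 : 5 ≤ d
      · rw [← (hlocal c d hcd hc hd hd5).1, hB.pt c d hcd]
      · by_cases hc5 : 5 ≤ c
        · rw [← (hlocal d c (Ne.symm hcd) hd hc hc5).2, hB.pt c d hcd]
        · rcases Nat.lt_or_ge c d with hlt | hge
          · have h := hlow c d hlt hc hd (by omega)
            exact ⟨fun _ => h.2.1, fun _ => h.1.1⟩
          · have h := hlow d c (by omega) hd hc (by omega)
            exact ⟨fun h' => absurd h' h.1.2, fun h' => absurd h' h.2.2⟩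
    · exact ⟨fun h => absurd ((hm0 d).1 (pair_mem h).2) hd, fun h => absurd (pair_mem h).2 hd⟩
  · exact ⟨fun h => absurd ((hm0 c).1 (pair_mem h).1) hc, fun h => absurd (pair_mem h).1 hc⟩

end Pool.Agent.MWPN.C.H59
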