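import Pool.Agent.MWPC.Stmts

/-!
# Block MWPN, row EGX: a multiple letter stays in its blocks
-/

set_option autoImplicit false

namespace Pool.Agent.MWPN.C.H36

open Pool.Agent.Helper14_MV Pool.Agent.Helper2_MV Pool.Agent.MWF Pool.Agent.MWP

theorem mem_rep {m c a : ℕ} (hm : 1 ≤ m) : a ∈ List.replicate m c ↔ a = c := by
  rw [List.mem_replicate]
  exact ⟨fun h => h.2, fun h => ⟨by omega, h⟩⟩

theorem pair_rep {m c a b : ℕ} (hab : a ≠ b) : ¬ [a, b].Sublist (List.replicate m c) := by
  intro h
  have h1 : a = c := List.eq_of_mem_replicate (h.subset (by simp))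
  have h2 : b = c := List.eq_of_mem_replicate (h.subset (by simp))
  exact hab (h1.trans h2.symm)

theorem mul_rep {m c : ℕ} (hm : 2 ≤ m) : Mul (List.replicate m c) := by
  intro a ha
  rw [List.eq_of_mem_replicate ha]
  have h : [c, c] = List.replicate 2 c := rfl
  rw [h]
  exact (List.replicate_sublist_replicate c).2 hm

/-- blocks of one letter with the same residues -/
theorem rep_eq {n : ℕ} {β : FIC} (hβ : BtC n β) {p q c : ℕ} (hp : 2 ≤ p) (hq : 2 ≤ q)
    (h : p ≡ q [MOD n]) : RR β (List.replicate p c) (List.replicate q c) := by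
  refine hβ.loc _ _ (Or.inr (Chw.rep p c)) (mul_rep hp) (mul_rep hq) (fun a => ?_) (fun a => ?_) (fun a b hab => ?_)
  · rw [mem_rep (by omega), mem_rep (by omega)]
  · by_cases ha : a = c
    · subst ha
      rw [List.count_replicate_self, List.count_replicate_self]
      exact h
    · rw [List.count_eq_zero.2 (fun h' => ha (List.eq_of_mem_replicate h')),
        List.count_eq_zero.2 (fun h' => ha (List.eq_of_mem_replicate h'))]
  · exact ⟨fun h' => absurd h' (pair_rep hab), fun h' => absurd h' (pair_rep hab)⟩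

/-- the test word -/
def LL (n p q : ℕ) : List ℕ :=
  List.replicate (2 * n * p) 0 ++ ip n 1 ++ List.replicate (2 * n * q) 0

/-- normal form of the test word -/
def NN (n : ℕ) (a b : Bool) : List ℕ :=
  (if a then ip n 0 else []) ++ ip n 1 ++ (if b then ip n 0 else [])

theorem rep_nf {n : ℕ} {β : FIC} (hβ : BtC n β) (p : ℕ) :
    RR β (List.replicate (2 * n * p) 0) (if decide (0 < p) then ip n 0 else []) := by
  have hn := hβ.pos
  rcases Nat.eq_zero_or_pos p with rfl | hp
  · exact RR.refl _
  · have h1 : decide (0 < p) = true := decide_eq_true hp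
    rw [h1, if_pos rfl]
    have h2 : 2 * n ≤ 2 * n * p := Nat.le_mul_of_pos_right _ hp
    refine rep_eq hβ (by omega) (by omega) ?_
    have e1 : 2 * n * p = n * (2 * p) := by ring
    have e2 : 2 * n = n * 2 := by ring
    rw [e1, e2]
    unfold Nat.ModEq
    rw [Nat.mul_mod_right, Nat.mul_mod_right]

theorem LL_nf {n : ℕ} {β : FIC} (hβ : BtC n β) (p q : ℕ) :
    RR β (LL n p q) (NN n (decide (0 < p)) (decide (0 < q))) :=
  ((rep_nf hβ p).append (RR.refl (ip n 1))).append (rep_nf hβ q)

theorem flat {n c : ℕ} (hc : c ≠ 0) : ∀ l : List ℕ, 0 ∉ l →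
    l.flatMap (fun d => if d = c then ip n 0 else if d = 0 then ip n 1 else []) =
      List.replicate (2 * n * l.count c) 0 := by
  intro l
  induction l with
  | nil => intro _; rfl
  | cons a l ih =>
    intro h
    rw [List.mem_cons, not_or] at h
    rw [List.flatMap_cons, ih h.2]
    by_cases h1 : a = c
    · subst h1
      rw [if_pos rfl, List.count_cons_self]
      have h2 : 2 * n * (l.count a + 1) = 2 * n + 2 * n * l.count a := by ring
      rw [h2, List.replicate_add]
      rfl
    · rw [if_neg h1, if_neg (Ne.symm h.1), List.count_cons_of_ne h1]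
      rfl

theorem egx_word {n c : ℕ} (hc : c ≠ 0) {w0 w1 : List ℕ} (h0 : 0 ∉ w0) (h1 : 0 ∉ w1) :
    (w0 ++ 0 :: w1).flatMap (fun d => if d = c then ip n 0 else if d = 0 then ip n 1 else []) =
      LL n (w0.count c) (w1.count c) := by
  rw [List.flatMap_append, List.flatMap_cons, flat hc w0 h0, flat hc w1 h1]
  rw [if_neg (Ne.symm hc), if_pos rfl, ← List.append_assoc]
  rfl

theorem multi {c : ℕ} (hc : c ≠ 0) {w0 w1 : List ℕ} (h : [c, c].Sublist (w0 ++ 0 :: w1)) :
    0 < w0.count c ∨ 0 < w1.count c := by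
  have h1 : c ∈ w0 ++ 0 :: w1 := h.subset (by simp)
  rw [List.mem_append, List.mem_cons] at h1
  rcases h1 with h2 | h2 | h2
  · exact Or.inl (List.count_pos_iff.2 h2)
  · exact absurd h2 hc
  · exact Or.inr (List.count_pos_iff.2 h2)

theorem egx (iso : IsoStmt) (ge1 : Ge1Stmt) : EgxStmt := by
  intro n β hβ w0 w1 w0' w1' h0 h1 h0' h1' hr c hc hcc
  have hn := hβ.pos
  have hcc' : [c, c].Sublist (w0' ++ 0 :: w1') := ((iso n β hβ _ _ hr c).2.1).1 hcc
  have hm := multi hc hcc
  have hm' := multi hc hcc'
  obtain ⟨_, g2, g3⟩ := ge1 n β hβ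
  have hL : RR β (LL n (w0.count c) (w1.count c)) (LL n (w0'.count c) (w1'.count c)) := by
    have h := RR.sub (fun d => if d = c then ip n 0 else if d = 0 then ip n 1 else []) hr
    rw [egx_word hc h0 h1, egx_word hc h0' h1'] at h
    exact h
  have hN : RR β (NN n (decide (0 < w0.count c)) (decide (0 < w1.count c)))
      (NN n (decide (0 < w0'.count c)) (decide (0 < w1'.count c))) :=
    β.trans (β.symm (LL_nf hβ _ _)) (β.trans hL (LL_nf hβ _ _))
  have hXX : RR β (ip n 0 ++ ip n 0) (ip n 0) := by
    have h5 : ip n 0 ++ ip n 0 = List.replicate (2 * n + 2 * n) 0 :=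
      List.replicate_append_replicate
    rw [h5]
    refine rep_eq hβ (by omega) (by omega) ?_
    unfold Nat.ModEq
    have e1 : 2 * n + 2 * n = n * 4 := by ring
    have e2 : 2 * n = n * 2 := by ring
    rw [e1, e2, Nat.mul_mod_right, Nat.mul_mod_right]
  -- the third impossible case
  have g4 : ¬ RR β (ip n 0 ++ ip n 1) (ip n 1 ++ ip n 0) := by
    intro h
    apply g3
    have h5 : RR β (ip n 0 ++ (ip n 0 ++ ip n 1)) (ip n 0 ++ (ip n 1 ++ ip n 0)) :=
      (RR.refl (ip n 0)).append h
    have h6 : RR β (ip n 0 ++ ip n 0 ++ ip n 1) (ip n 0 ++ ip n 1) :=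
      hXX.append (RR.refl (ip n 1))
    rw [← List.append_assoc, ← List.append_assoc] at h5
    exact β.trans (β.symm h6) h5
  have eTT : NN n true true = ip n 0 ++ ip n 1 ++ ip n 0 := rfl
  have eTF : NN n true false = ip n 0 ++ ip n 1 := List.append_nil _
  have eFT : NN n false true = ip n 1 ++ ip n 0 := rfl
  rw [← eTT, ← eFT] at g2
  rw [← eTT, ← eTF] at g3
  rw [← eTF, ← eFT] at g4
  have key : ∀ a b a' b' : Bool, (a = true ∨ b = true) → (a' = true ∨ b' = true) →
      RR β (NN n a b) (NN n a' b') → a = a' ∧ b = b' := by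
    intro a b a' b' hab hab' h
    cases a <;> cases b <;> cases a' <;> cases b'
    all_goals first
      | exact ⟨rfl, rfl⟩
      | (exfalso; rcases hab with h8 | h8 <;> exact Bool.false_ne_true h8)
      | (exfalso; rcases hab' with h8 | h8 <;> exact Bool.false_ne_true h8)
      | exact absurd h g2
      | exact absurd (β.symm h) g2
      | exact absurd h g3
      | exact absurd (β.symm h) g3
      | exact absurd h g4
      | exact absurd (β.symm h) g4
  have hfin := key _ _ _ _ (by simpa using hm) (by simpa using hm') hN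
  constructor
  · rw [← List.count_pos_iff, ← List.count_pos_iff]
    exact decide_eq_decide.1 hfin.1
  · rw [← List.count_pos_iff, ← List.count_pos_iff]
    exact decide_eq_decide.1 hfin.2

end Pool.Agent.MWPN.C.H36
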