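import Pool.Agent.MWPC.Stmts

/-!
# Block MWPN, row ENL (MP_23468a_al): enlarging the gap word, period `n`
-/

set_option autoImplicit false

namespace Pool.Agent.MWPN.C.H62

open Pool.Agent.Helper14_MV Pool.Agent.Helper2_MV Pool.Agent.MWF Pool.Agent.MWP

theorem filter_small (m : ℕ) (l : List ℕ) (h : ∀ c ∈ l, c < m + 3) :
    l.filter (fun c => decide (c < m + 3)) = l := by
  rw [List.filter_eq_self]
  intro c hc
  simpa using h c hc

theorem ip_small (m n a : ℕ) (ha : a < 3) : ∀ c ∈ ip n a, c < m + 3 := by
  intro c hc
  unfold ip at hc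
  rw [List.eq_of_mem_replicate hc]
  omega

theorem chw_app {v : List ℕ} {m : ℕ} (hch : Chw v) (hm : ∀ c ∈ v, c < m) :
    Chw (v ++ [m, m, m + 1, m + 1]) := by
  have hp : List.Pairwise (· ≤ ·) [m, m, m + 1, m + 1] := by simp
  intro a b hab h1 h2
  rw [pair_append] at h1 h2
  have hT : ∀ c ∈ [m, m, m + 1, m + 1], m ≤ c := by
    intro c hc
    simp only [List.mem_cons, List.not_mem_nil, or_false] at hc
    omega
  rcases h1 with h1 | ⟨h1, h1'⟩ | h1
  · rcases h2 with h2 | ⟨h2, h2'⟩ | h2
    · exact hch a b hab h1 h2
    · have := hm _ (pair_mem h1).1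
      have := hT _ h2'
      omega
    · have := hm _ (pair_mem h1).1
      have := hT _ (pair_mem h2).2
      omega
  · have e1 := hm _ h1
    have e2 := hT _ h1'
    rcases h2 with h2 | ⟨h2, h2'⟩ | h2
    · have := hm _ (pair_mem h2).1
      omega
    · have := hm _ h2
      omega
    · have := hT _ (pair_mem h2).2
      omega
  · rcases h2 with h2 | ⟨h2, h2'⟩ | h2
    · have := hm _ (pair_mem h2).2
      have := hT _ (pair_mem h1).1
      omega
    · have := hm _ h2
      have := hT _ (pair_mem h1).2
      omega
    · have e1 := hp.sublist h1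
      have e2 := hp.sublist h2
      simp only [List.pairwise_cons, List.mem_singleton, forall_eq] at e1 e2
      omega

/-- row ENL -/
theorem enl (hH : MWP.HexStmt) : EnlStmt := by
  intro v hv hch
  obtain ⟨m, hm⟩ : ∃ m, ∀ c ∈ v, c < m := by
    refine ⟨v.sum + 1, fun c hc => ?_⟩
    have := List.single_le_sum (l := v) (fun x _ => Nat.zero_le x) c hc
    omega
  obtain ⟨h, hh⟩ := hH (v ++ [m, m, m + 1, m + 1])
  refine ⟨v ++ [m, m, m + 1, m + 1], h, ?_, chw_app hch hm, hh, ?_, ?_⟩
  · intro c hc
    rcases List.mem_append.1 hc with h1 | h1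
    · exact (hv c h1).trans (List.sublist_append_left _ _)
    · refine List.Sublist.trans ?_ (List.sublist_append_right _ _)
      simp only [List.mem_cons, List.not_mem_nil, or_false] at h1
      have h2 : c = m ∨ c = m + 1 := by omega
      rcases h2 with rfl | rfl
      · exact List.sublist_append_left [c, c] [c + 1, c + 1]
      · exact List.sublist_append_right [m, m] [m + 1, m + 1]
  · have hc : Chn (v ++ [m, m, m + 1, m + 1]) [m, m + 1] := by
      constructor
      · intro x hx
        apply List.mem_append_right
        simp only [List.mem_cons, List.not_mem_nil, or_false] at hx ⊢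
        tauto
      · simp only [List.pairwise_cons, List.mem_singleton, forall_eq, List.not_mem_nil,
          IsEmpty.forall_iff, implies_true, List.Pairwise.nil, and_true]
        refine ⟨by omega, ?_⟩
        intro hs
        rw [pair_append] at hs
        rcases hs with hs | ⟨h1, _⟩ | hs
        · have := hm _ (pair_mem hs).2
          omega
        · have := hm _ h1
          omega
        · have hp : List.Pairwise (· ≤ ·) [m, m, m + 1, m + 1] := by
            simp
          have h2 := hp.sublist hs
          simp at h2
    have := hh.2 _ hc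
    simpa using this
  · intro n β
    have key : ∀ a b : List ℕ, (∀ c ∈ a, c < m + 3) → (∀ c ∈ b, c < m + 3) →
        RR β (ip n 0 ++ (v ++ [m, m, m + 1, m + 1]).map (fun c => c + 3) ++ ip n 1 ++ 2 :: a)
          (ip n 0 ++ (v ++ [m, m, m + 1, m + 1]).map (fun c => c + 3) ++ ip n 1 ++ 2 :: b) →
        RR β (ip n 0 ++ v.map (fun c => c + 3) ++ ip n 1 ++ 2 :: a)
          (ip n 0 ++ v.map (fun c => c + 3) ++ ip n 1 ++ 2 :: b) := by
      intro a b ha hb hr
      have h1 := hr.filter (fun c => decide (c < m + 3))
      have hv : (v.map (fun c => c + 3)).filter (fun c => decide (c < m + 3)) =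
          v.map (fun c => c + 3) := by
        apply filter_small
        intro c hc
        rw [List.mem_map] at hc
        obtain ⟨d, hd, rfl⟩ := hc
        have := hm d hd
        omega
      have hs : ∀ a : List ℕ, (∀ c ∈ a, c < m + 3) →
          (ip n 0 ++ (v ++ [m, m, m + 1, m + 1]).map (fun c => c + 3) ++ ip n 1 ++ 2 :: a).filter
            (fun c => decide (c < m + 3)) =
          ip n 0 ++ v.map (fun c => c + 3) ++ ip n 1 ++ 2 :: a := by
        intro a ha
        rw [List.filter_append, List.filter_append, List.filter_append,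
          filter_small m (ip n 0) (ip_small m n 0 (by omega)),
          filter_small m (ip n 1) (ip_small m n 1 (by omega)), List.map_append,
          List.filter_append, hv, List.filter_cons_of_pos (by simp), filter_small m a ha]
        simp
      rw [hs a ha, hs b hb] at h1
      exact h1
    have i0 := ip_small m n 0 (by omega)
    have i1 := ip_small m n 1 (by omega)
    have j01 : ∀ c ∈ ip n 0 ++ ip n 1, c < m + 3 := by
      intro c hc
      rcases List.mem_append.1 hc with h | h
      · exact i0 c h
      · exact i1 c h
    have j10 : ∀ c ∈ ip n 1 ++ ip n 0, c < m + 3 := by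
      intro c hc
      rcases List.mem_append.1 hc with h | h
      · exact i1 c h
      · exact i0 c h
    have j010 : ∀ c ∈ ip n 0 ++ ip n 1 ++ ip n 0, c < m + 3 := by
      intro c hc
      rcases List.mem_append.1 hc with h | h
      · exact j01 c h
      · exact i0 c h
    constructor
    · exact key _ _ j01 j010
    · exact key _ _ j10 j010

end Pool.Agent.MWPN.C.H62
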