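import Pool.Agent.MWPC.Stmts

/-! # Row ISO of squad MWPN (the lemma `cnt_rr` is adapted from Pool.Agent.Helper16_MWP.ISO) -/

set_option autoImplicit false

namespace Pool.Agent.MWPN.C.H27

open Pool.Agent.Helper14_MV Pool.Agent.Helper2_MV Pool.Agent.MWF Pool.Agent.MWP

theorem cnt_rr {θ : FIC} {u v : List ℕ} (h : RR θ u v) (c : ℕ) :
    RR θ (List.replicate (u.count c) 0) (List.replicate (v.count c) 0) := by
  have e : ∀ l : List ℕ, l.flatMap (fun i => if i = c then [0] else []) =
      List.replicate (l.count c) 0 := by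
    intro l
    induction l with
    | nil => rfl
    | cons a l ih =>
      rw [List.flatMap_cons, ih]
      by_cases hac : a = c
      · subst hac
        rw [if_pos rfl, List.count_cons_self, List.replicate_succ]
        rfl
      · rw [if_neg hac, List.count_cons_of_ne hac]
        rfl
  have h1 := h.sub (fun i => if i = c then [0] else [])
  rwa [e, e] at h1

/-- **ISO** -/
theorem iso : IsoStmt := by
  intro n β hβ u v huv c
  have h3 : ∀ l : List ℕ, [c, c].Sublist l ↔ 2 ≤ l.count c := fun l =>
    List.replicate_sublist_iff (n := 2) (a := c)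
  rw [h3, h3, ← List.count_pos_iff, ← List.count_pos_iff]
  rcases hβ.ex _ _ (cnt_rr huv c) with h | ⟨h1, h2, h4⟩
  · rw [h]
    exact ⟨Iff.rfl, Iff.rfl, Nat.ModEq.refl _⟩
  · exact ⟨⟨fun _ => by omega, fun _ => by omega⟩, ⟨fun _ => h2, fun _ => h1⟩, h4⟩

end Pool.Agent.MWPN.C.H27
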