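import Pool.Agent.MWPC.Stmts

/-!
# Block MWPN, row KPR: `β` keeps the invariant sets (the twin of the row KPR of MWP by helper19)
-/

namespace Pool.Agent.MWPN.C.H47

open Pool.Agent.Helper14_MV Pool.Agent.Helper2_MV Pool.Agent.MWF Pool.Agent.MWP
open Pool.Agent.MWPN

/-- the truth value of `Bf o l r` is the same for the two second blocks -/
theorem bf_keep (h2 : MWPN.C.VisStmt) {n : ℕ} {β : FIC} (hb : BtC n β) {v : List ℕ} {o : Bool}
    (hm : MWPN.Mul v) (hch : Chw v) (hn : if o then ¬ MWPN.QV n β v else ¬ MWPN.PV n β v)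
    {w0 w1 w0' w1' : List ℕ} (hB : MWPN.Bas n v w0 w1) (hB' : MWPN.Bas n v w0' w1')
    (hr : RR β (w0 ++ 0 :: w1) (w0' ++ 0 :: w1')) {l r : ℕ}
    (hl : l = 1 ∨ l = 2) (hrr : r = 3 ∨ r = 4) : Bf o l r w1 ↔ Bf o l r w1' := by
  have A := h2 n β hb v w0 w1 w0' w1' hm hch hB hB' hr l r hl hrr
  have B := h2 n β hb v w0' w1' w0 w1 hm hch hB' hB hr.symm l r hl hrr
  cases o with
  | false =>
    simp only [Bf, Bool.false_eq_true, if_false] at hn ⊢
    constructor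
    · intro h h'
      exact hn (A.1 h' h)
    · intro h h'
      exact hn (B.1 h' h)
  | true =>
    simp only [Bf, if_true] at hn ⊢
    constructor
    · intro h h'
      exact hn (A.2 h' h)
    · intro h h'
      exact hn (B.2 h' h)

theorem kpr (h1 : MWPN.C.BasStmt) (h2 : MWPN.C.VisStmt) : MWPN.C.KprStmt := by
  intro n β hb v o hm hch hv hn w w' hw
  have key : ∀ C : List ℕ → Prop,
      (∀ w0 w1 w0' w1' : List ℕ, MWPN.Bas n v w0 w1 → MWPN.Bas n v w0' w1' →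
        RR β (w0 ++ 0 :: w1) (w0' ++ 0 :: w1') → C w1 → C w1') →
        MWPN.KS n v C w → MWPN.KS n v C w' := by
    intro C hC hk
    obtain ⟨w0, w1, rfl, hB, hc⟩ := hk
    obtain ⟨w0', w1', rfl, hB'⟩ := h1 n β hb v w0 w1 w' hv hB hw
    exact ⟨w0', w1', rfl, hB', hC w0 w1 w0' w1' hB hB' hw hc⟩
  refine ⟨key _ ?_, key _ ?_, key _ ?_⟩
  · intro w0 w1 w0' w1' hB hB' hr hc
    have e24 := bf_keep h2 hb hm hch hn hB hB' hr (l := 2) (r := 4) (Or.inr rfl) (Or.inr rfl)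
    have e14 := bf_keep h2 hb hm hch hn hB hB' hr (l := 1) (r := 4) (Or.inl rfl) (Or.inr rfl)
    exact ⟨e24.1 hc.1, fun h => hc.2 (e14.2 h)⟩
  · intro w0 w1 w0' w1' hB hB' hr hc
    have e13 := bf_keep h2 hb hm hch hn hB hB' hr (l := 1) (r := 3) (Or.inl rfl) (Or.inl rfl)
    have e14 := bf_keep h2 hb hm hch hn hB hB' hr (l := 1) (r := 4) (Or.inl rfl) (Or.inr rfl)
    exact ⟨e13.1 hc.1, fun h => hc.2 (e14.2 h)⟩
  · intro w0 w1 w0' w1' hB hB' hr hc
    have e24 := bf_keep h2 hb hm hch hn hB hB' hr (l := 2) (r := 4) (Or.inr rfl) (Or.inr rfl)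
    have e13 := bf_keep h2 hb hm hch hn hB hB' hr (l := 1) (r := 3) (Or.inl rfl) (Or.inl rfl)
    have e14 := bf_keep h2 hb hm hch hn hB hB' hr (l := 1) (r := 4) (Or.inl rfl) (Or.inr rfl)
    exact ⟨e24.1 hc.1, e13.1 hc.2.1, fun h => hc.2.2 (e14.2 h)⟩

end Pool.Agent.MWPN.C.H47
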