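import Pool.Agent.MWPC.Stmts

/-!
# MWPN row ORD (helper80)

The order against a local letter is kept.  Both words are mapped by `c ↦ ip n 0`, `z ↦ ip n 1`,
`0 ↦ t`, all other letters deleted.
-/

namespace Pool.Agent.MWPN.C.H80

open Pool.Agent.Helper14_MV Pool.Agent.Helper2_MV Pool.Agent.MWF Pool.Agent.MWP Pool.Agent.MWPN

theorem mem_ip {n a b : ℕ} (hn : 1 ≤ n) : a ∈ ip n b ↔ a = b := by
  unfold ip
  rw [List.mem_replicate]
  exact ⟨fun h => h.2, fun h => ⟨by omega, h⟩⟩

theorem mem_ip' {n a b : ℕ} (h : a ∈ ip n b) : a = b := by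
  unfold ip at h
  exact (List.mem_replicate.1 h).2

theorem npair_ip {n a b d : ℕ} (hab : a ≠ b) : ¬ [a, b].Sublist (ip n d) := by
  intro h
  obtain ⟨h1, h2⟩ := pair_mem h
  exact hab ((mem_ip' h1).trans (mem_ip' h2).symm)

/-- nice words -/
def Nc (n : ℕ) (u : List ℕ) : Prop :=
  (∀ a ∈ u, a = 0 ∨ a = 1) ∧ Mul u ∧ ∀ a, u.count a ≡ 0 [MOD n]

theorem Nc.nil (n : ℕ) : Nc n [] :=
  ⟨fun a h => absurd h List.not_mem_nil, fun a h => absurd h List.not_mem_nil, fun _ => rfl⟩

theorem Nc.app {n : ℕ} {u v : List ℕ} (hu : Nc n u) (hv : Nc n v) : Nc n (u ++ v) := by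
  refine ⟨fun a h => ?_, fun a h => ?_, fun a => ?_⟩
  · rcases List.mem_append.1 h with h | h
    · exact hu.1 a h
    · exact hv.1 a h
  · rcases List.mem_append.1 h with h | h
    · exact (hu.2.1 a h).trans (List.sublist_append_left _ _)
    · exact (hv.2.1 a h).trans (List.sublist_append_right _ _)
  · rw [List.count_append]
    exact (hu.2.2 a).add (hv.2.2 a)

theorem Nc.ip {n b : ℕ} (hn : 1 ≤ n) (hb : b = 0 ∨ b = 1) : Nc n (ip n b) := by
  refine ⟨fun a h => ?_, fun a h => ?_, fun a => ?_⟩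
  · rw [mem_ip' h]
    exact hb
  · rw [mem_ip' h]
    have h1 : [b, b] = List.replicate 2 b := rfl
    rw [h1]
    unfold Pool.Agent.MWPN.ip
    rw [List.replicate_sublist_replicate]
    omega
  · unfold Pool.Agent.MWPN.ip
    rw [List.count_replicate]
    by_cases h : b = a
    · simp [h, Nat.ModEq]
    · have h2 : (b == a) = false := by simpa using h
      rw [h2]
      rfl

theorem locN {n : ℕ} {β : FIC} (hB : BtC n β) {u v : List ℕ} (hu : Nc n u) (hv : Nc n v)
    (h0 : 0 ∈ u ↔ 0 ∈ v) (h1 : 1 ∈ u ↔ 1 ∈ v) (h2 : [0, 1].Sublist u ↔ [0, 1].Sublist v)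
    (h3 : [1, 0].Sublist u ↔ [1, 0].Sublist v) : RR β u v := by
  apply hB.loc u v (Or.inl hu.1) hu.2.1 hv.2.1
  · intro a
    constructor
    · intro h
      rcases hu.1 a h with rfl | rfl
      · exact h0.1 h
      · exact h1.1 h
    · intro h
      rcases hv.1 a h with rfl | rfl
      · exact h0.2 h
      · exact h1.2 h
  · intro a
    exact (hu.2.2 a).trans (hv.2.2 a).symm
  · intro a b hab
    constructor
    · intro h
      obtain ⟨ha, hb⟩ := pair_mem h
      rcases hu.1 a ha with rfl | rfl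
      · rcases hu.1 b hb with rfl | rfl
        · exact absurd rfl hab
        · exact h2.1 h
      · rcases hu.1 b hb with rfl | rfl
        · exact h3.1 h
        · exact absurd rfl hab
    · intro h
      obtain ⟨ha, hb⟩ := pair_mem h
      rcases hv.1 a ha with rfl | rfl
      · rcases hv.1 b hb with rfl | rfl
        · exact absurd rfl hab
        · exact h2.2 h
      · rcases hv.1 b hb with rfl | rfl
        · exact h3.2 h
        · exact absurd rfl hab

/-- the substitution -/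
def sf (n c z : ℕ) (t : List ℕ) : ℕ → List ℕ := fun a =>
  if a = c then ip n 0 else if a = z then ip n 1 else if a = 0 then t else []

theorem sf_c (n c z : ℕ) (t : List ℕ) : sf n c z t c = ip n 0 := by
  unfold sf
  rw [if_pos rfl]

theorem sf_z {n c z : ℕ} (h : c ≠ z) (t : List ℕ) : sf n c z t z = ip n 1 := by
  unfold sf
  rw [if_neg h.symm, if_pos rfl]

theorem sf_0 {n c z : ℕ} (h : c ≠ 0) (h' : z ≠ 0) (t : List ℕ) : sf n c z t 0 = t := by
  unfold sf
  rw [if_neg h.symm, if_neg h'.symm, if_pos rfl]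

theorem sf_o {n c z a : ℕ} (h : a ≠ c) (h' : a ≠ z) (h0 : a ≠ 0) (t : List ℕ) :
    sf n c z t a = [] := by
  unfold sf
  rw [if_neg h, if_neg h', if_neg h0]

theorem mem_sf0 {n c z a : ℕ} {t : List ℕ} (ha : a ≠ 0) (h : 0 ∈ sf n c z t a) : a = c := by
  by_contra h1
  by_cases h2 : a = z
  · unfold sf at h
    rw [if_neg h1, if_pos h2] at h
    exact absurd (mem_ip' h) (by decide)
  · rw [sf_o h1 h2 ha] at h
    exact List.not_mem_nil h

theorem mem_sf1 {n c z a : ℕ} {t : List ℕ} (ha : a ≠ 0) (h : 1 ∈ sf n c z t a) : a = z := by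
  by_contra h1
  by_cases h2 : a = c
  · rw [h2, sf_c] at h
    exact absurd (mem_ip' h) (by decide)
  · rw [sf_o h2 h1 ha] at h
    exact List.not_mem_nil h

section

variable {n c z : ℕ} (hn : 1 ≤ n) (hcz : c ≠ z) (t : List ℕ) {w : List ℕ} (hw : 0 ∉ w)

include hn in
theorem nc_sf : Nc n (w.flatMap (sf n c z t)) ∨ 0 ∈ w := by
  induction w with
  | nil => exact Or.inl (Nc.nil n)
  | cons a w ih =>
    rcases ih with ih | ih
    · by_cases ha : a = 0
      · exact Or.inr (by rw [ha]; exact List.mem_cons_self)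
      · left
        rw [List.flatMap_cons]
        refine Nc.app ?_ ih
        by_cases h1 : a = c
        · rw [h1, sf_c]
          exact Nc.ip hn (Or.inl rfl)
        · by_cases h2 : a = z
          · unfold sf
            rw [if_neg h1, if_pos h2]
            exact Nc.ip hn (Or.inr rfl)
          · rw [sf_o h1 h2 ha]
            exact Nc.nil n
    · exact Or.inr (List.mem_cons_of_mem _ ih)

include hn hw in
theorem nc_sf' : Nc n (w.flatMap (sf n c z t)) := (nc_sf hn t).resolve_right hw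

include hn hw in
theorem m0 : 0 ∈ w.flatMap (sf n c z t) ↔ c ∈ w := by
  rw [List.mem_flatMap]
  constructor
  · rintro ⟨a, ha, h⟩
    have h1 : a ≠ 0 := by
      rintro rfl
      exact hw ha
    rw [← mem_sf0 h1 h]
    exact ha
  · intro h
    exact ⟨c, h, by rw [sf_c, mem_ip hn]⟩

include hn hw hcz in
theorem m1 : 1 ∈ w.flatMap (sf n c z t) ↔ z ∈ w := by
  rw [List.mem_flatMap]
  constructor
  · rintro ⟨a, ha, h⟩
    have h1 : a ≠ 0 := by
      rintro rfl
      exact hw ha
    rw [← mem_sf1 h1 h]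
    exact ha
  · intro h
    exact ⟨z, h, by rw [sf_z hcz, mem_ip hn]⟩

include hn hw hcz in
theorem p01 : [0, 1].Sublist (w.flatMap (sf n c z t)) ↔ [c, z].Sublist w := by
  rw [pair_flatMap]
  constructor
  · rintro (⟨a, ha, h⟩ | ⟨a, b, hab, h, h'⟩)
    · have h1 : a ≠ 0 := by
        rintro rfl
        exact hw ha
      obtain ⟨h2, h3⟩ := pair_mem h
      exact absurd ((mem_sf0 h1 h2).symm.trans (mem_sf1 h1 h3)) hcz
    · obtain ⟨ha, hb⟩ := pair_mem hab
      have h1 : a ≠ 0 := by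
        rintro rfl
        exact hw ha
      have h2 : b ≠ 0 := by
        rintro rfl
        exact hw hb
      rw [mem_sf0 h1 h, mem_sf1 h2 h'] at hab
      exact hab
  · intro h
    exact Or.inr ⟨c, z, h, by rw [sf_c, mem_ip hn], by rw [sf_z hcz, mem_ip hn]⟩

include hn hw hcz in
theorem p10 : [1, 0].Sublist (w.flatMap (sf n c z t)) ↔ [z, c].Sublist w := by
  rw [pair_flatMap]
  constructor
  · rintro (⟨a, ha, h⟩ | ⟨a, b, hab, h, h'⟩)
    · have h1 : a ≠ 0 := by
        rintro rfl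
        exact hw ha
      obtain ⟨h2, h3⟩ := pair_mem h
      exact absurd ((mem_sf0 h1 h3).symm.trans (mem_sf1 h1 h2)) hcz
    · obtain ⟨ha, hb⟩ := pair_mem hab
      have h1 : a ≠ 0 := by
        rintro rfl
        exact hw ha
      have h2 : b ≠ 0 := by
        rintro rfl
        exact hw hb
      rw [mem_sf1 h1 h, mem_sf0 h2 h'] at hab
      exact hab
  · intro h
    exact Or.inr ⟨z, c, h, by rw [sf_z hcz, mem_ip hn], by rw [sf_c, mem_ip hn]⟩

end

theorem fl_split {n c z : ℕ} (h : c ≠ 0) (h' : z ≠ 0) (t w0 w1 : List ℕ) :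
    (w0 ++ 0 :: w1).flatMap (sf n c z t) =
      w0.flatMap (sf n c z t) ++ (t ++ w1.flatMap (sf n c z t)) := by
  rw [List.flatMap_append, List.flatMap_cons, sf_0 h h']

theorem fl_nil {n c z : ℕ} (t : List ℕ) {w : List ℕ} (h0 : 0 ∉ w) (hc : c ∉ w) (hz : z ∉ w) :
    w.flatMap (sf n c z t) = [] := by
  rw [List.flatMap_eq_nil_iff]
  intro a ha
  refine sf_o ?_ ?_ ?_ t
  · rintro rfl
    exact hc ha
  · rintro rfl
    exact hz ha
  · rintro rfl
    exact h0 ha

theorem fl_X {n : ℕ} {β : FIC} (hB : BtC n β) {c z : ℕ} (hcz : c ≠ z) (t : List ℕ) {w : List ℕ}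
    (h0 : 0 ∉ w) (hc : c ∈ w) (hz : z ∉ w) : RR β (w.flatMap (sf n c z t)) (ip n 0) := by
  have hn := hB.pos
  refine locN hB (nc_sf' hn t h0) (Nc.ip hn (Or.inl rfl)) ?_ ?_ ?_ ?_
  · rw [m0 hn t h0, mem_ip hn]
    exact ⟨fun _ => rfl, fun _ => hc⟩
  · rw [m1 hn hcz t h0, mem_ip hn]
    exact ⟨fun h => absurd h hz, fun h => absurd h (by decide)⟩
  · rw [p01 hn hcz t h0]
    exact ⟨fun h => absurd (pair_mem h).2 hz, fun h => absurd h (npair_ip (by decide))⟩
  · rw [p10 hn hcz t h0]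
    exact ⟨fun h => absurd (pair_mem h).1 hz, fun h => absurd h (npair_ip (by decide))⟩

theorem ord (hiso : IsoStmt) (hge1 : Ge1Stmt) (hegx : EgxStmt) : OrdStmt := by
  intro n β hB w0 w1 w0' w1' h0 h1 h0' h1' hr c z hcz hc0 hz0 hzz hz1 hcw hcc
  have hn := hB.pos
  have hzw : [z, z].Sublist (w0 ++ 0 :: w1) := hzz.trans (List.sublist_append_left _ _)
  have hzm : z ∈ w0 := (pair_mem hzz).1
  have hez := hegx n β hB w0 w1 w0' w1' h0 h1 h0' h1' hr z hz0 hzw
  have hec := hegx n β hB w0 w1 w0' w1' h0 h1 h0' h1' hr c hc0 hcc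
  have hzm' : z ∈ w0' := hez.1.1 hzm
  have hz1' : z ∉ w1' := fun h => hz1 (hez.2.2 h)
  have hcw' : c ∈ w0' := hec.1.1 hcw
  have nX : Nc n (ip n 0) := Nc.ip hn (Or.inl rfl)
  have nY : Nc n (ip n 1) := Nc.ip hn (Or.inr rfl)
  have i00 : 0 ∈ ip n 0 := (mem_ip hn).2 rfl
  have i11 : 1 ∈ ip n 1 := (mem_ip hn).2 rfl
  have i10 : 1 ∉ ip n 0 := fun h => absurd (mem_ip' h) (by decide)
  have i01 : 0 ∉ ip n 1 := fun h => absurd (mem_ip' h) (by decide)
  -- the pattern `X Y X`
  have xyx : ∀ u, Nc n u → 0 ∈ u → 1 ∈ u → [0, 1].Sublist u → [1, 0].Sublist u →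
      RR β u (ip n 0 ++ ip n 1 ++ ip n 0) := by
    intro u hu a0 a1 a2 a3
    refine locN hB hu ((nX.app nY).app nX) ⟨fun _ => by simp [i00], fun _ => a0⟩
      ⟨fun _ => by simp [i11], fun _ => a1⟩ ⟨fun _ => ?_, fun _ => a2⟩ ⟨fun _ => ?_, fun _ => a3⟩
    · exact pair_append.2 (Or.inl (pair_append.2 (Or.inr (Or.inl ⟨i00, i11⟩))))
    · exact pair_append.2 (Or.inr (Or.inl ⟨List.mem_append_right _ i11, i00⟩))
  -- the pattern `X Y`
  have xy : ∀ u, Nc n u → 0 ∈ u → 1 ∈ u → [0, 1].Sublist u → ¬ [1, 0].Sublist u →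
      RR β u (ip n 0 ++ ip n 1) := by
    intro u hu a0 a1 a2 a3
    refine locN hB hu (nX.app nY) ⟨fun _ => by simp [i00], fun _ => a0⟩
      ⟨fun _ => by simp [i11], fun _ => a1⟩ ⟨fun _ => ?_, fun _ => a2⟩
      ⟨fun h => absurd h a3, fun h => ?_⟩
    · exact pair_append.2 (Or.inr (Or.inl ⟨i00, i11⟩))
    · rcases pair_append.1 h with h | ⟨h, _⟩ | h
      · exact absurd h (npair_ip (by decide))
      · exact absurd h i10
      · exact absurd h (npair_ip (by decide))
  -- the pattern `Y X`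
  have yx : ∀ u, Nc n u → 0 ∈ u → 1 ∈ u → ¬ [0, 1].Sublist u → [1, 0].Sublist u →
      RR β u (ip n 1 ++ ip n 0) := by
    intro u hu a0 a1 a2 a3
    refine locN hB hu (nY.app nX) ⟨fun _ => by simp [i00], fun _ => a0⟩
      ⟨fun _ => by simp [i11], fun _ => a1⟩ ⟨fun h => absurd h a2, fun h => ?_⟩
      ⟨fun _ => ?_, fun _ => a3⟩
    · rcases pair_append.1 h with h | ⟨h, _⟩ | h
      · exact absurd h (npair_ip (by decide))
      · exact absurd h i01
      · exact absurd h (npair_ip (by decide))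
    · exact pair_append.2 (Or.inr (Or.inl ⟨i11, i00⟩))
  have s := fun t => hr.sub (sf n c z t)
  simp only [fl_split hc0 hz0] at s
  constructor
  · intro h
    by_contra hcon
    have hcon2 : [z, c].Sublist w0' := (pair_total hcw' hzm' hcz).resolve_left hcon
    have g1 : ∀ t, RR β (w0.flatMap (sf n c z t) ++ ip n 0) (ip n 0 ++ ip n 1 ++ ip n 0) := by
      intro t
      refine xyx _ ((nc_sf' hn t h0).app nX) (List.mem_append_right _ i00)
        (List.mem_append_left _ ((m1 hn hcz t h0).2 hzm)) ?_ ?_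
      · exact pair_append.2 (Or.inl ((p01 hn hcz t h0).2 h))
      · exact pair_append.2 (Or.inr (Or.inl ⟨(m1 hn hcz t h0).2 hzm, i00⟩))
    have g2 : ∀ t, RR β (w0'.flatMap (sf n c z t) ++ ip n 0) (ip n 1 ++ ip n 0) := by
      intro t
      refine yx _ ((nc_sf' hn t h0').app nX) (List.mem_append_right _ i00)
        (List.mem_append_left _ ((m1 hn hcz t h0').2 hzm')) ?_ ?_
      · intro h5
        rcases pair_append.1 h5 with h5 | ⟨_, h5⟩ | h5
        · exact hcon ((p01 hn hcz t h0').1 h5)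
        · exact i10 h5
        · exact absurd h5 (npair_ip (by decide))
      · exact pair_append.2 (Or.inr (Or.inl ⟨(m1 hn hcz t h0').2 hzm', i00⟩))
    by_cases hk : c ∈ w1
    · have hk' : c ∈ w1' := hec.2.1 hk
      have e1 := s (ip n 0 ++ [2])
      have e2 : RR β (w0.flatMap (sf n c z (ip n 0 ++ [2])) ++ (ip n 0 ++ [2] ++
          w1.flatMap (sf n c z (ip n 0 ++ [2])))) (ip n 0 ++ ip n 1 ++ ip n 0 ++ 2 :: ip n 0) := by
        have := (g1 (ip n 0 ++ [2])).append ((RR.refl (β := β) [2]).append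
          (fl_X hB hcz (ip n 0 ++ [2]) h1 hk hz1))
        simpa using this
      have e3 : RR β (w0'.flatMap (sf n c z (ip n 0 ++ [2])) ++ (ip n 0 ++ [2] ++
          w1'.flatMap (sf n c z (ip n 0 ++ [2])))) (ip n 1 ++ ip n 0 ++ 2 :: ip n 0) := by
        have := (g2 (ip n 0 ++ [2])).append ((RR.refl (β := β) [2]).append
          (fl_X hB hcz (ip n 0 ++ [2]) h1' hk' hz1'))
        simpa using this
      exact (hge1 n β hB).1 (β.trans e3.symm (β.trans e1.symm e2))
    · have hk' : c ∉ w1' := fun h5 => hk (hec.2.2 h5)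
      have e1 := (s []).append (RR.refl (β := β) (ip n 0))
      rw [fl_nil [] h1 hk hz1, fl_nil [] h1' hk' hz1', List.append_nil, List.append_nil,
        List.append_nil] at e1
      exact (hge1 n β hB).2.1 (β.trans (g2 []).symm (β.trans e1.symm (g1 [])))
  · intro h
    by_contra hcon
    have hcon2 : [c, z].Sublist w0' := (pair_total hcw' hzm' hcz).resolve_right hcon
    have g1 : ∀ t, RR β (ip n 0 ++ w0.flatMap (sf n c z t)) (ip n 0 ++ ip n 1 ++ ip n 0) := by
      intro t
      refine xyx _ (nX.app (nc_sf' hn t h0)) (List.mem_append_left _ i00)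
        (List.mem_append_right _ ((m1 hn hcz t h0).2 hzm)) ?_ ?_
      · exact pair_append.2 (Or.inr (Or.inl ⟨i00, (m1 hn hcz t h0).2 hzm⟩))
      · exact pair_append.2 (Or.inr (Or.inr ((p10 hn hcz t h0).2 h)))
    have g2 : ∀ t, RR β (ip n 0 ++ w0'.flatMap (sf n c z t)) (ip n 0 ++ ip n 1) := by
      intro t
      refine xy _ (nX.app (nc_sf' hn t h0')) (List.mem_append_left _ i00)
        (List.mem_append_right _ ((m1 hn hcz t h0').2 hzm')) ?_ ?_
      · exact pair_append.2 (Or.inr (Or.inl ⟨i00, (m1 hn hcz t h0').2 hzm'⟩))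
      · intro h5
        rcases pair_append.1 h5 with h5 | ⟨h5, _⟩ | h5
        · exact absurd h5 (npair_ip (by decide))
        · exact i10 h5
        · exact hcon ((p10 hn hcz t h0').1 h5)
    by_cases hk : c ∈ w1
    · have hk' : c ∈ w1' := hec.2.1 hk
      have e1 := (RR.refl (β := β) (ip n 0)).append (s [2])
      have e2 : RR β (ip n 0 ++ (w0.flatMap (sf n c z [2]) ++ ([2] ++
          w1.flatMap (sf n c z [2])))) (ip n 0 ++ ip n 1 ++ ip n 0 ++ 2 :: ip n 0) := by
        have := (g1 [2]).append ((RR.refl (β := β) [2]).append (fl_X hB hcz [2] h1 hk hz1))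
        simpa using this
      have e3 : RR β (ip n 0 ++ (w0'.flatMap (sf n c z [2]) ++ ([2] ++
          w1'.flatMap (sf n c z [2])))) (ip n 0 ++ ip n 1 ++ 2 :: ip n 0) := by
        have := (g2 [2]).append ((RR.refl (β := β) [2]).append (fl_X hB hcz [2] h1' hk' hz1'))
        simpa using this
      exact hB.e0 (β.trans e3.symm (β.trans e1.symm e2))
    · have hk' : c ∉ w1' := fun h5 => hk (hec.2.2 h5)
      have e1 := (RR.refl (β := β) (ip n 0)).append (s [])
      rw [fl_nil [] h1 hk hz1, fl_nil [] h1' hk' hz1', List.append_nil, List.append_nil,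
        List.append_nil] at e1
      exact (hge1 n β hB).2.2 (β.trans (g2 []).symm (β.trans e1.symm (g1 [])))

end Pool.Agent.MWPN.C.H80
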