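import Pool.Agent.MWPN.Fin
import Pool.Agent.MWPC.ISO
import Pool.Agent.MWPC.GE1
import Pool.Agent.MWPC.EGX
import Pool.Agent.MWPC.ORD
import Pool.Agent.MWPC.BAS
import Pool.Agent.MWPC.VIS
import Pool.Agent.MWPC.KPR
import Pool.Agent.MWPC.PEN
import Pool.Agent.MWPC.ENL
import Pool.Agent.MWPC.FIN

/-!
# Composition of the rows of block MWPC

`fin` is the result; `btC` gives the hypothesis `BtC` from its two letter part.
-/

set_option autoImplicit false

namespace Pool.Agent.MWPN.C

open Pool.Agent.Helper14_MV Pool.Agent.Helper2_MV Pool.Agent.MWF Pool.Agent.MWP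

/-- the result of the block: `x v y t x y ≈ x v y t y x` for every chain word `v` -/
theorem fin : FinStmt := by
  have iso := H27.iso
  have ge1 := H74.ge1
  have egx := H36.egx iso ge1
  have ord := H80.ord iso ge1 egx
  have bas := H59.bas iso egx ord
  have kpr := H47.kpr bas H9.vis
  exact H62F.fin (H36.pen clsN kpr) (H62.enl MWP.H37.hex)

theorem rtr {β : FIC} {a b c : List ℕ} (h1 : RR β a b) (h2 : RR β b c) : RR β a c :=
  β.trans h1 h2

theorem per_rep {n : ℕ} {β : FIC} (hper : RR β [0, 0] (List.replicate (n + 2) 0)) (c : ℕ) :
    ∀ t m : ℕ, RR β (List.replicate (m + 2) c) (List.replicate (m + 2 + t * n) c) := by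
  have h1 : RR β (List.replicate 2 c) (List.replicate (n + 2) c) := by
    have h := hper.sub (fun _ => [c])
    have e : ∀ k : ℕ, (List.replicate k 0).flatMap (fun _ : ℕ => [c]) = List.replicate k c := by
      intro k
      induction k with
      | zero => rfl
      | succ k ih => rw [List.replicate_succ, List.flatMap_cons, ih]; rfl
    rw [e] at h
    exact h
  have h2 : ∀ m : ℕ, RR β (List.replicate (m + 2) c) (List.replicate (m + 2 + n) c) := by
    intro m
    have h := (RR.refl (β := β) (List.replicate m c)).append h1
    rw [List.replicate_append_replicate, List.replicate_append_replicate] at h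
    have e : m + (n + 2) = m + 2 + n := by omega
    rw [e] at h
    exact h
  intro t
  induction t with
  | zero =>
    intro m
    rw [Nat.zero_mul, Nat.add_zero]
    exact RR.refl _
  | succ t ih =>
    intro m
    have h3 := ih m
    have h4 := h2 (m + t * n)
    have e1 : m + t * n + 2 = m + 2 + t * n := by omega
    have e2 : m + 2 + t * n + n = m + 2 + (t + 1) * n := by
      rw [Nat.add_mul, Nat.one_mul]
      omega
    rw [e1, e2] at h4
    exact rtr h3 h4

theorem rep_mod {n : ℕ} {β : FIC} (hper : RR β [0, 0] (List.replicate (n + 2) 0)) (c : ℕ)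
    {p q : ℕ} (hp : 2 ≤ p) (hq : 2 ≤ q) (h : p ≡ q [MOD n]) :
    RR β (List.replicate p c) (List.replicate q c) := by
  have key : ∀ p q : ℕ, 2 ≤ p → p ≤ q → p ≡ q [MOD n] →
      RR β (List.replicate p c) (List.replicate q c) := by
    intro p q hp hpq h
    obtain ⟨t, ht⟩ := (Nat.modEq_iff_dvd' hpq).1 h
    have h1 := per_rep hper c t (p - 2)
    have e1 : p - 2 + 2 = p := by omega
    have e2 : p + t * n = q := by
      rw [Nat.mul_comm]
      omega
    rw [e1, e2] at h1
    exact h1
  rcases Nat.le_total p q with h1 | h1
  · exact key p q hp h1 h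
  · exact (key q p hq h1 h.symm).symm

theorem split_head (c : ℕ) : ∀ u : List ℕ, (∀ b, b ≠ c → ¬ [b, c].Sublist u) →
    u = List.replicate (u.count c) c ++ u.filter (fun x => decide (x ≠ c)) := by
  intro u
  induction u with
  | nil => intro _; rfl
  | cons d u ih =>
    intro h
    by_cases hd : d = c
    · subst hd
      have h1 := ih (fun b hb hs => h b hb (hs.cons d))
      rw [List.count_cons_self, List.replicate_succ, List.filter_cons_of_neg (by simp),
        List.cons_append, ← h1]
    · have hc : c ∉ u := by
        intro hc
        exact h d hd ((List.singleton_sublist.2 hc).cons_cons d)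
      have h0 : (d :: u).count c = 0 := by
        rw [List.count_eq_zero]
        intro h1
        rcases List.mem_cons.1 h1 with h2 | h2
        · exact hd h2.symm
        · exact hc h2
      rw [h0, List.replicate_zero, List.nil_append, eq_comm, List.filter_eq_self]
      intro a ha
      apply decide_eq_true
      rintro rfl
      rcases List.mem_cons.1 ha with h2 | h2
      · exact hd h2.symm
      · exact hc h2

theorem pair_filter {c a b : ℕ} (u : List ℕ) :
    [a, b].Sublist (u.filter (fun x => decide (x ≠ c))) ↔ a ≠ c ∧ b ≠ c ∧ [a, b].Sublist u := by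
  constructor
  · intro h
    have ha := List.mem_filter.1 (pair_mem h).1
    have hb := List.mem_filter.1 (pair_mem h).2
    exact ⟨of_decide_eq_true ha.2, of_decide_eq_true hb.2, h.trans List.filter_sublist⟩
  · rintro ⟨ha, hb, h⟩
    have h1 := h.filter (fun x => decide (x ≠ c))
    rw [List.filter_cons_of_pos (by simpa using ha), List.filter_cons_of_pos (by simpa using hb),
      List.filter_nil] at h1
    exact h1

theorem chw_loc {n : ℕ} {β : FIC} (hper : RR β [0, 0] (List.replicate (n + 2) 0)) :
    ∀ (k : ℕ) (u v : List ℕ), u.length ≤ k → Chw u → Mul u → Mul v → (∀ a, a ∈ u ↔ a ∈ v) →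
      (∀ a, u.count a ≡ v.count a [MOD n]) →
        (∀ a b, a ≠ b → ([a, b].Sublist u ↔ [a, b].Sublist v)) → RR β u v := by
  intro k
  induction k with
  | zero =>
    intro u v hk _ _ _ hm _ _
    have hu : u = [] := List.eq_nil_of_length_eq_zero (by omega)
    have hv : v = [] := by
      rw [List.eq_nil_iff_forall_not_mem]
      intro a ha
      have := (hm a).2 ha
      rw [hu] at this
      simp at this
    rw [hu, hv]
    exact RR.refl _
  | succ k ih =>
    intro u v hk hch hMu hMv hm hc hp
    rcases u with _ | ⟨c, u0⟩
    · have hv : v = [] := by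
        rw [List.eq_nil_iff_forall_not_mem]
        intro a ha
        have := (hm a).2 ha
        simp at this
      rw [hv]
      exact RR.refl _
    · have nu : ∀ b, b ≠ c → ¬ [b, c].Sublist (c :: u0) := by
        intro b hb h
        have h1 : b ∈ c :: u0 := (pair_mem h).1
        have h2 : b ∈ u0 := by
          rcases List.mem_cons.1 h1 with h3 | h3
          · exact absurd h3 hb
          · exact h3
        exact hch b c hb h ((List.singleton_sublist.2 h2).cons_cons c)
      have nv : ∀ b, b ≠ c → ¬ [b, c].Sublist v := fun b hb h => nu b hb ((hp b c hb).2 h)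
      have e1 := split_head c _ nu
      have e2 := split_head c _ nv
      have hcu : c ∈ c :: u0 := List.mem_cons_self
      have two : ∀ w : List ℕ, [c, c].Sublist w → 2 ≤ w.count c := by
        intro w h
        have := h.count_le c
        simpa using this
      have hr := rep_mod hper c (two _ (hMu c hcu)) (two _ (hMv c ((hm c).1 hcu))) (hc c)
      have hlen : ((c :: u0).filter (fun x => decide (x ≠ c))).length ≤ k := by
        rw [List.filter_cons_of_neg (by simp)]
        have := List.length_filter_le (fun x => decide (x ≠ c)) u0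
        simp only [List.length_cons] at hk
        omega
      have hmf : ∀ (w : List ℕ) (a : ℕ), a ∈ w.filter (fun x => decide (x ≠ c)) ↔
          a ∈ w ∧ a ≠ c := by
        intro w a
        rw [List.mem_filter, decide_eq_true_eq]
      have hMf : ∀ w : List ℕ, Mul w → Mul (w.filter (fun x => decide (x ≠ c))) := by
        intro w hw a ha
        rw [hmf] at ha
        rw [pair_filter]
        exact ⟨ha.2, ha.2, hw a ha.1⟩
      have hrest := ih ((c :: u0).filter (fun x => decide (x ≠ c)))
        (v.filter (fun x => decide (x ≠ c))) hlen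
        (fun a b hab h1 h2 => hch a b hab (h1.trans List.filter_sublist)
          (h2.trans List.filter_sublist)) (hMf _ hMu) (hMf _ hMv)
        (fun a => by rw [hmf, hmf, hm a])
        (fun a => by
          by_cases hac : a = c
          · have z : ∀ w : List ℕ, (w.filter (fun x => decide (x ≠ c))).count a = 0 := by
              intro w
              rw [List.count_eq_zero, hmf]
              exact fun h => h.2 hac
            rw [z, z]
          · rw [List.count_filter (by simpa using hac), List.count_filter (by simpa using hac)]
            exact hc a)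
        (fun a b hab => by rw [pair_filter, pair_filter, hp a b hab])
      have h3 := hr.append hrest
      rw [← e1, ← e2] at h3
      exact h3

/-- the hypothesis from its two letter part -/
theorem btC {n : ℕ} {β : FIC} (pos : 1 ≤ n) (per : RR β [0, 0] (List.replicate (n + 2) 0))
    (ex : ∀ p q : ℕ, RR β (List.replicate p 0) (List.replicate q 0) →
      p = q ∨ (2 ≤ p ∧ 2 ≤ q ∧ p ≡ q [MOD n]))
    (bet : RR β [0, 1, 0] (List.replicate (n + 1) 0 ++ 1 :: List.replicate (n + 1) 0))
    (loc2 : ∀ u v : List ℕ, Two u → Mul u → Mul v → (∀ a, a ∈ u ↔ a ∈ v) →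
      (∀ a, u.count a ≡ v.count a [MOD n]) →
        (∀ a b, a ≠ b → ([a, b].Sublist u ↔ [a, b].Sublist v)) → RR β u v)
    (e0 : ¬ RR β (ip n 0 ++ ip n 1 ++ 2 :: ip n 0)
      (ip n 0 ++ ip n 1 ++ ip n 0 ++ 2 :: ip n 0)) : BtC n β :=
  ⟨pos, per, ex, bet, fun u v h => by
    rcases h with h | h
    · exact loc2 u v h
    · exact chw_loc per u.length u v le_rfl h, e0⟩

end Pool.Agent.MWPN.C
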