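import Pool.Agent.MWPN.Stmts

/-!
# Block MWPC: the rows of MWPN with a weaker hypothesis

`BtC` is `BtN` with the field `loc` only for words over the letters `0, 1` and for chains (no two
letters with both patterns; there `loc` is just the period).  The gap word `v` has to be a chain
word.  So no local theorem with residues is needed.
-/

namespace Pool.Agent.MWPN.C

open Pool.Agent.Helper14_MV Pool.Agent.Helper2_MV Pool.Agent.MWF Pool.Agent.MWP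

/-- no two letters with both patterns -/
def Chw (v : List ℕ) : Prop := ∀ a b, a ≠ b → [a, b].Sublist v → ¬ [b, a].Sublist v

/-- only the letters `0, 1` -/
def Two (v : List ℕ) : Prop := ∀ a ∈ v, a = 0 ∨ a = 1

/-- hypotheses on the fully invariant congruence, period `n` -/
structure BtC (n : ℕ) (β : FIC) : Prop where
  pos : 1 ≤ n
  per : RR β [0, 0] (List.replicate (n + 2) 0)
  ex : ∀ p q : ℕ, RR β (List.replicate p 0) (List.replicate q 0) →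
    p = q ∨ (2 ≤ p ∧ 2 ≤ q ∧ p ≡ q [MOD n])
  bet : RR β [0, 1, 0] (List.replicate (n + 1) 0 ++ 1 :: List.replicate (n + 1) 0)
  loc : ∀ u v : List ℕ, (Two u ∨ Chw u) → Mul u → Mul v → (∀ a, a ∈ u ↔ a ∈ v) →
    (∀ a, u.count a ≡ v.count a [MOD n]) →
      (∀ a b, a ≠ b → ([a, b].Sublist u ↔ [a, b].Sublist v)) → RR β u v
  e0 : ¬ RR β (ip n 0 ++ ip n 1 ++ 2 :: ip n 0) (ip n 0 ++ ip n 1 ++ ip n 0 ++ 2 :: ip n 0)

theorem Chw.rep (p c : ℕ) : Chw (List.replicate p c) := by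
  intro a b hab h _
  have h1 : a = c := List.eq_of_mem_replicate (h.subset (by simp))
  have h2 : b = c := List.eq_of_mem_replicate (h.subset (by simp))
  exact hab (h1.trans h2.symm)

theorem Two.app {u v : List ℕ} (h1 : Two u) (h2 : Two v) : Two (u ++ v) := by
  intro a ha
  rcases List.mem_append.1 ha with h | h
  · exact h1 a h
  · exact h2 a h

theorem Two.i0 (n : ℕ) : Two (ip n 0) := fun _ ha => Or.inl (List.eq_of_mem_replicate ha)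

theorem Two.i1 (n : ℕ) : Two (ip n 1) := fun _ ha => Or.inr (List.eq_of_mem_replicate ha)

/-- ISO with `BtC` -/
def IsoStmt : Prop :=
  ∀ (n : ℕ) (β : FIC), BtC n β → ∀ u v : List ℕ, RR β u v → ∀ c,
    (c ∈ u ↔ c ∈ v) ∧ ([c, c].Sublist u ↔ [c, c].Sublist v) ∧ u.count c ≡ v.count c [MOD n]

/-- GE1 with `BtC` -/
def Ge1Stmt : Prop :=
  ∀ (n : ℕ) (β : FIC), BtC n β →
    ¬ RR β (ip n 1 ++ ip n 0 ++ 2 :: ip n 0) (ip n 0 ++ ip n 1 ++ ip n 0 ++ 2 :: ip n 0) ∧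
    ¬ RR β (ip n 1 ++ ip n 0) (ip n 0 ++ ip n 1 ++ ip n 0) ∧
    ¬ RR β (ip n 0 ++ ip n 1) (ip n 0 ++ ip n 1 ++ ip n 0)

/-- EGX with `BtC` -/
def EgxStmt : Prop :=
  ∀ (n : ℕ) (β : FIC), BtC n β → ∀ w0 w1 w0' w1' : List ℕ, 0 ∉ w0 → 0 ∉ w1 → 0 ∉ w0' → 0 ∉ w1' →
    RR β (w0 ++ 0 :: w1) (w0' ++ 0 :: w1') → ∀ c, c ≠ 0 → [c, c].Sublist (w0 ++ 0 :: w1) →
      (c ∈ w0 ↔ c ∈ w0') ∧ (c ∈ w1 ↔ c ∈ w1')

/-- ORD with `BtC` -/
def OrdStmt : Prop :=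
  ∀ (n : ℕ) (β : FIC), BtC n β → ∀ w0 w1 w0' w1' : List ℕ, 0 ∉ w0 → 0 ∉ w1 → 0 ∉ w0' → 0 ∉ w1' →
    RR β (w0 ++ 0 :: w1) (w0' ++ 0 :: w1') → ∀ c z, c ≠ z → c ≠ 0 → z ≠ 0 →
      [z, z].Sublist w0 → z ∉ w1 → c ∈ w0 → [c, c].Sublist (w0 ++ 0 :: w1) →
        ([c, z].Sublist w0 → [c, z].Sublist w0') ∧ ([z, c].Sublist w0 → [z, c].Sublist w0')

/-- BAS with `BtC` -/
def BasStmt : Prop :=
  ∀ (n : ℕ) (β : FIC), BtC n β → ∀ v w0 w1 w' : List ℕ, v ≠ [] → Bas n v w0 w1 →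
    RR β (w0 ++ 0 :: w1) w' → ∃ w0' w1', w' = w0' ++ 0 :: w1' ∧ Bas n v w0' w1'

/-- VIS with `BtC` -/
def VisStmt : Prop :=
  ∀ (n : ℕ) (β : FIC), BtC n β → ∀ v w0 w1 w0' w1' : List ℕ, Mul v → Chw v → Bas n v w0 w1 →
    Bas n v w0' w1' → RR β (w0 ++ 0 :: w1) (w0' ++ 0 :: w1') → ∀ l r, (l = 1 ∨ l = 2) →
      (r = 3 ∨ r = 4) →
      ([r, l].Sublist w1' → ¬ [r, l].Sublist w1 → PV n β v) ∧
      ([l, r].Sublist w1' → ¬ [l, r].Sublist w1 → QV n β v)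

/-- KPR with `BtC` -/
def KprStmt : Prop :=
  ∀ (n : ℕ) (β : FIC), BtC n β → ∀ (v : List ℕ) (o : Bool), Mul v → Chw v → v ≠ [] →
    (if o then ¬ QV n β v else ¬ PV n β v) → ∀ w w' : List ℕ, RR β w w' →
      (KS n v (Cb o) w → KS n v (Cb o) w') ∧ (KS n v (Cc o) w → KS n v (Cc o) w') ∧
        (KS n v (Ck o) w → KS n v (Ck o) w')

/-- PEN with `BtC` -/
def PenStmt : Prop :=
  ∀ (n : ℕ) (β : FIC), BtC n β → ModF β → ∀ (v : List ℕ) (h : ℕ), Mul v → Chw v → Hgt v h → 2 ≤ h →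
    PV n β v ∧ QV n β v

/-- ENL with `BtC` -/
def EnlStmt : Prop :=
  ∀ v : List ℕ, Mul v → Chw v → ∃ (v' : List ℕ) (h : ℕ), Mul v' ∧ Chw v' ∧ Hgt v' h ∧ 2 ≤ h ∧
    ∀ (n : ℕ) (β : FIC), (PV n β v' → PV n β v) ∧ (QV n β v' → QV n β v)

/-- FIN with `BtC` -/
def FinStmt : Prop :=
  ∀ (n : ℕ) (β : FIC), BtC n β → ModF β → ∀ v : List ℕ, Mul v → Chw v → DV β v

end Pool.Agent.MWPN.C
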